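import Pool.Agent.X65.MS.Poly
import Pool.Agent.X65.MS.TPoly

/-!
# The complexity of the minimum label sum of proper labellings

Problem MP_ec274c_lc, Q1. Definitions (`Pool.Agent.X65.MS.Defs`): labellings are functions
`l : Sym2 V → ℕ`; `colour G l v` is the sum of the labels of the edges at `v`; `labelSum G l` is the
sum of the labels of all edges; `IsProper G l` says that the labels of the edges are positive and
that adjacent vertices have different colours; `Nice G` says that no component of `G` is an edge.
`MinSum (M, q)` says that `M` is the adjacency matrix of a nice graph with a proper labelling with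
label sum at most `q`, that is, `mE(G) ≤ q`.
-/

set_option autoImplicit false

namespace Pool.Agent.Results.MP_ec274c_lc.Complexity

open Pool.Agent.NPC Pool.Agent.NPC.R671 Pool.Agent.X65.MS

/-- **The complexity of MIN-SUM**: it is NP-hard to decide, given a nice graph `G` and an integer
`q`, whether `mE(G) ≤ q`; but there is a polynomial-time algorithm which computes `mE(G)` (the
minimum label sum of a proper labelling) for every nice tree `G`. -/
theorem result :
    NPHardP MinSum ∧
    ∃ A : List Bool → List Bool, PolyTime A ∧
      ∀ (n : ℕ) (G : SimpleGraph (Fin n)), G.IsTree → Nice G →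
        ∃ m : ℕ, A (bits (adjMatrix G)) = bits m ∧
          (∃ l : Sym2 (Fin n) → ℕ, IsProper G l ∧ labelSum G l = m) ∧
          ∀ l : Sym2 (Fin n) → ℕ, IsProper G l → m ≤ labelSum G l :=
  ⟨hardI_minSum.toNPHardP, trees⟩

end Pool.Agent.Results.MP_ec274c_lc.Complexity
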